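import Mathlib
import Pool.Agent.TH881.RK.General
import Pool.Agent.TH881.RQ.Wrap

/-!
# Prime triples, quadruples, ... with a member in a set of primes: exact minimal densities

Let `A` be a set of primes of relative lower density at least `β`. How many vectors
`h = (h 1, ..., h m)` are realised by `A`, that is, have a prime `p` in `A` such that
`p, p + h 1, ..., p + h m` are all prime? (For `m = 2, 3`: prime triples and quadruples.) The least
possible lower density `F m β` of the set of these vectors is determined exactly for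
`β = 1 / φ(P)`, `P` the product of the primes up to a prime `p ≥ 3`: it is the density of the
admissible vectors times `φ(P) ^ m / U m P`, where `U m P` is the number of the vectors modulo `P`
without obstruction; this is `(φ(P) / P) ^ m` if `p ≥ m + 2`. So one half of the primes always
realises at least `2 / 3` of all differences, `4 / 7` of the admissible patterns of triples and
`8 / 15` of those of quadruples, an eighth of the primes at least the proportion `(4 / 15) ^ m` of all
vectors for `m ≤ 3`, and these numbers are best possible. Between the exact values, `F m β` is at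
least the interpolation, linear in `log β`, of `log F`.

The proof: the extremal problem over all sets of primes is reduced to a local one (residue classes);
there an inequality is proved by induction over the primes, using the log-concavity of occupancy
numbers and an inequality for the embedding of Lorentz spaces. The extremal sets are the primes
`≡ 1 (mod P)`.
-/

set_option autoImplicit false

namespace Pool.Agent.Results.MP_3efbeb_nt.ExactDensities
open Finset Filter Topology

open Classical in
/-- The number of elements of `S` in `[1, x]`. -/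
noncomputable def count (S : Set ℕ) (x : ℕ) : ℕ := ((Icc 1 x).filter (fun n => n ∈ S)).card

/-- The lower density, relative to the set of all primes, of the set of the primes in `A`. -/
noncomputable def relLower (A : Set ℕ) : ℝ :=
  liminf (fun x : ℕ => (count {p | p.Prime ∧ p ∈ A} x : ℝ) / (count {p | p.Prime} x : ℝ)) atTop

/-- The vectors `h` which are realised by `A`: some prime `p` in `A` has all `p + h j` prime. -/
def realised (m : ℕ) (A : Set ℕ) : Set (Fin m → ℕ) :=
  {h | ∃ p ∈ A, p.Prime ∧ ∀ j, (p + h j).Prime}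

/-- The vectors without local obstruction: for every prime `q` some integer `a`, not divisible by
`q`, has no `a + h j` divisible by `q`. -/
def Admissible {m : ℕ} (h : Fin m → ℕ) : Prop :=
  ∀ q : ℕ, q.Prime → ∃ a : ℕ, ¬ q ∣ a ∧ ∀ j, ¬ q ∣ a + h j

open Classical in
/-- The number of the vectors in `S` with entries in `[1, x]`. -/
noncomputable def countVec {m : ℕ} (S : Set (Fin m → ℕ)) (x : ℕ) : ℕ :=
  ((Fintype.piFinset (fun _ : Fin m => Icc 1 x)).filter (fun h => h ∈ S)).card

/-- The lower density of a set of vectors. -/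
noncomputable def lowerDensity {m : ℕ} (S : Set (Fin m → ℕ)) : ℝ :=
  liminf (fun x : ℕ => (countVec S x : ℝ) / (x : ℝ) ^ m) atTop

/-- `F m β`: the least possible lower density of the set of the realised vectors, for sets `A` of
primes of relative lower density at least `β`. -/
noncomputable def F (m : ℕ) (β : ℝ) : ℝ :=
  sInf {c | ∃ A : Set ℕ, β ≤ relLower A ∧ c = lowerDensity (realised m A)}

/-- The product of the primes up to `k`. -/
def P (k : ℕ) : ℕ := ∏ p ∈ (Icc 1 k).filter Nat.Prime, p

/-- The number of the vectors `t` of residue classes modulo `n` without obstruction: some unit `b` has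
all `t j + b` units. -/
noncomputable def U (m n : ℕ) : ℕ :=
  Nat.card {t : Fin m → ZMod n // ∃ b : ZMod n, IsUnit b ∧ ∀ j, IsUnit (t j + b)}

/-- **Exact minimal densities.** Let `m ≥ 1`. The set of the admissible vectors has a positive density
`d`. For every prime `p ≥ 3`: (1) `F m (1 / φ(P p)) = d φ(P p) ^ m / U m (P p)`; (2) for
`0 < β < 1`, `β ≤ 1 / φ(P (p - 1))`, `F m β` is at least
`d (φ(P (p - 1)) ^ m / U m (P (p - 1))) (β φ(P (p - 1))) ^ a`, where
`a = log (U m p / (p - 1) ^ m) / log (p - 1)`. Explicitly, (3) `F m (1 / 2) = d 2 ^ m / (2 ^ (m + 1) - 1)`,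
and (4) `F m (1 / φ(P p)) = (φ(P p) / P p) ^ m` if `p ≥ m + 2`. -/
theorem result (m : ℕ) (hm : 1 ≤ m) :
    ∃ d : ℝ, 0 < d ∧
      Tendsto (fun x : ℕ => (countVec {h : Fin m → ℕ | Admissible h} x : ℝ) / (x : ℝ) ^ m)
        atTop (𝓝 d) ∧
      (∀ p : ℕ, p.Prime → 3 ≤ p →
        F m (1 / (Nat.totient (P p) : ℝ)) = d * ((Nat.totient (P p) : ℝ) ^ m / U m (P p)) ∧
        ∀ β : ℝ, 0 < β → β < 1 → β ≤ 1 / (Nat.totient (P (p - 1)) : ℝ) →
          d * ((Nat.totient (P (p - 1)) : ℝ) ^ m / U m (P (p - 1)) *
            (β * (Nat.totient (P (p - 1)) : ℝ)) ^ (Real.logb ((p : ℝ) - 1) ((U m p : ℝ) / ((p : ℝ) - 1) ^ m))) ≤ F m β) ∧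
      F m (1 / 2) = d * (2 ^ m / (2 ^ (m + 1) - 1)) ∧
      ∀ p : ℕ, p.Prime → m + 2 ≤ p →
        F m (1 / (Nat.totient (P p) : ℝ)) = ((Nat.totient (P p) : ℝ) / P p) ^ m := by
  have e1 : ∀ A : Set ℕ, relLower A = Pool.Agent.TH881.RQ.relq true A := by
    intro A
    rw [Pool.Agent.TH881.RQ.relq_true]
    rfl
  have e2 : ∀ A : Set ℕ, realised m A = Pool.Agent.TH881.RK.hitk true m A := by
    intro A
    ext h
    constructor
    · rintro ⟨p, hpA, hp, hj⟩
      exact ⟨p, hpA, fun _ => hp, hj⟩
    · rintro ⟨p, hpA, hp, hj⟩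
      exact ⟨p, hpA, hp rfl, hj⟩
  have e3 : {h : Fin m → ℕ | Admissible h} = {h : Fin m → ℕ | Pool.Agent.TH881.RK.Admk true h} := by
    ext h
    constructor
    · intro h1 q hq
      obtain ⟨a, ha, hb⟩ := h1 q hq
      exact ⟨a, fun _ => ha, hb⟩
    · intro h1 q hq
      obtain ⟨a, ha, hb⟩ := h1 q hq
      exact ⟨a, ha rfl, hb⟩
  have e4 : ∀ β : ℝ, F m β = Pool.Agent.TH881.RK.FFk true m β := by
    intro β
    unfold F Pool.Agent.TH881.RK.FFk
    refine congrArg sInf (Set.ext fun d => ⟨?_, ?_⟩)
    · rintro ⟨A, hA, hd⟩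
      refine ⟨A, by rw [← e1]; exact hA, ?_⟩
      rw [hd, e2]
      rfl
    · rintro ⟨A, hA, hd⟩
      refine ⟨A, by rw [e1]; exact hA, ?_⟩
      rw [hd, e2]
      rfl
  have eP : ∀ k, P k = Pool.Agent.TH881.Wp k := fun k => rfl
  have eU : ∀ n, U m n = Pool.Agent.TH881.RK.Uc m n := fun n => rfl
  refine ⟨Pool.Agent.TH881.RK.ldk {h : Fin m → ℕ | Pool.Agent.TH881.RK.Admk true h},
    Pool.Agent.TH881.RK.adm_dens_pos m, ?_, ?_, ?_, ?_⟩
  · rw [e3]
    exact (Pool.Agent.TH881.RK.dual_in true m hm).1
  · intro p hp hp3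
    refine ⟨?_, fun β hβ hβ1 hβ2 => ?_⟩
    · rw [e4, eU, eP]
      exact Pool.Agent.TH881.RK.FFk_exact_gen m hm hp3
    · rw [e4, eU, eU, eP]
      rw [eP] at hβ2
      exact Pool.Agent.TH881.RK.FFk_low_all m hm hp hp3 hβ hβ1 hβ2
  · rw [e4]
    exact Pool.Agent.TH881.RK.half_eq_in m hm
  · intro p hp hmp
    rw [e4, eP]
    exact Pool.Agent.TH881.RK.exact_in m hm (by omega) (by omega)

end Pool.Agent.Results.MP_3efbeb_nt.ExactDensities
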