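import Pool.Agent.TH977.PW.Inst

set_option autoImplicit false

/-!
# The constellations around almost all constellations

Let `{0} ∪ H` be an admissible set, `k = #H + 1`. Let `R H r` be the set of the `n` for which all
prime factors of `n` and of the `n + h` (`h ∈ H`) are larger than `n ^ (1 / r)`; it contains all
prime constellations. Let `A` be an ARBITRARY subset of `R H r` (for example the set of all prime
constellations). In every short interval `(X, X + Y]`, `X ^ θ ≤ Y ≤ X / 2`, all but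
`ε Y / log ^ k X` of the elements of `A` are regular points of `A`: the elements of `A` in ALL
intervals of length between `log ^ k X / c` and `Y` around them have the right order, and constant
density up to `δ` at all but `B (ε, δ)` dyadic scales. The result is not void: `(X, 2X]` contains at
least `κ X / log ^ k X` primes `p` in `R H r` such that all `p + h` have at most `r` prime factors.
-/

namespace Pool.Agent.Results.MP_3efbeb_nt.RegularConstellations

open Finset Filter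
open Pool.Agent.TH977.PW (N Irregular)

/-- All prime factors of `n` and of all `n + h`, `h ∈ H`, are larger than `n ^ (1 / r)`. -/
def R (H : Finset ℕ) (r : ℕ) : Set ℕ :=
  {n | ∀ q : ℕ, q.Prime → q ∣ n * ∏ h ∈ H, (n + h) → (n : ℝ) ^ (1 / (r : ℝ)) < (q : ℝ)}

lemma cast_eq (n h : ℕ) : ((1 : ℕ) : ℤ) * (n : ℤ) + ((h : ℕ) : ℤ) = ((n + h : ℕ) : ℤ) := by
  push_cast
  ring

/-- **Regular constellations.** -/
theorem result (H : Finset ℕ) (h0 : 0 ∉ H)
    (hadm : ∀ q : ℕ, q.Prime → ∃ n : ℕ, ¬ q ∣ n * ∏ h ∈ H, (n + h))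
    (θ : ℝ) (hθ : 0 < θ) (hθ1 : θ ≤ 1) :
    ∃ r₀ : ℕ, 2 ≤ r₀ ∧ ∀ r : ℕ, r₀ ≤ r →
      (∀ p : ℕ, p.Prime → (∀ h ∈ H, (p + h).Prime) → p ∈ R H r) ∧
      (∃ κ : ℝ, 0 < κ ∧ ∀ᶠ X : ℕ in atTop, κ * X / Real.log X ^ (H.card + 1) ≤
        N {p | p.Prime ∧ p ∈ R H r ∧ ∀ h ∈ H, (p + h).primeFactorsList.length ≤ r} X (2 * X)) ∧
      ∀ ε : ℝ, 0 < ε → ∃ c : ℝ, 0 < c ∧ ∀ δ : ℝ, 0 < δ → ∃ B : ℕ,
        ∀ᶠ X : ℕ in atTop, ∀ Y : ℕ, (X : ℝ) ^ θ ≤ Y → 2 * Y ≤ X → ∀ A : Set ℕ, A ⊆ R H r →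
          (N (Irregular A (H.card + 1) c δ B X Y) X (X + Y) : ℝ) ≤
            ε * Y / Real.log X ^ (H.card + 1) := by
  obtain ⟨r0, hr0, h⟩ := Pool.Agent.TH977.PW.final_lin_prime
    (fun _ : {x // x ∈ H} => 1) (fun i : {x // x ∈ H} => ((i.1 : ℕ) : ℤ)) (fun _ => one_pos)
    (fun i => by rw [Nat.cast_one]; exact isCoprime_one_left)
    (fun i j _ hij => Subtype.ext (by exact_mod_cast hij))
    (fun i hi => h0 (by
      have h1 : i.1 = 0 := by exact_mod_cast hi.2
      rw [← h1]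
      exact i.2))
    (fun p hp => by
      obtain ⟨m, hm⟩ := hadm p hp
      refine ⟨m, fun h1 => hm (h1.mul_right _), fun i hi => hm ?_⟩
      rw [cast_eq, Int.natCast_dvd_natCast] at hi
      exact (hi.trans (Finset.dvd_prod_of_mem _ i.2)).mul_left _)
    (fun r => R H r)
    (fun r => {p | p.Prime ∧ p ∈ R H r ∧ ∀ h ∈ H, (p + h).primeFactorsList.length ≤ r})
    (H.card + 1) (by rw [Fintype.card_coe])
    (fun r m _ hm => ⟨fun p hp hd => hm p hp (hd.mul_right _), fun i p hp hd => hm p hp (by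
      rw [cast_eq, Int.natCast_dvd_natCast] at hd
      exact (hd.trans (Finset.dvd_prod_of_mem _ i.2)).mul_left _)⟩)
    (fun r m hr hm h1 h2 => by
      refine ⟨hm, ?_, ?_⟩
      · intro q hq hd
        rcases (Nat.Prime.dvd_mul hq).1 hd with h3 | h3
        · exact Pool.Agent.TH977.PW.rpow_lt_dvd r m q hr hm hq h3
        · obtain ⟨h, hh, h4⟩ := (Prime.dvd_finset_prod_iff hq.prime _).1 h3
          refine h1 ⟨h, hh⟩ q hq ?_
          rw [cast_eq, Int.natCast_dvd_natCast]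
          exact h4
      · intro h hh
        have := h2 ⟨h, hh⟩
        rw [cast_eq, Int.natAbs_natCast] at this
        exact this) θ hθ hθ1
  refine ⟨r0, hr0, fun r hr => ⟨?_, (h r hr).1, (h r hr).2⟩⟩
  intro p hp hph q hq hd
  rcases (Nat.Prime.dvd_mul hq).1 hd with h3 | h3
  · exact Pool.Agent.TH977.PW.rpow_lt_dvd r p q (hr0.trans hr) hp hq h3
  · obtain ⟨h, hh, h4⟩ := (Prime.dvd_finset_prod_iff hq.prime _).1 h3
    rw [(Nat.prime_dvd_prime_iff_eq hq (hph h hh)).1 h4]
    exact Pool.Agent.TH977.PW.rpow_lt_of_le r p (p + h) (hr0.trans hr) hp.two_le (by omega)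

end Pool.Agent.Results.MP_3efbeb_nt.RegularConstellations
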