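import Mathlib
import Pool.Agent.TH881.RK.Zero
import Pool.Agent.TH881.RQ.Wrap

/-!
# Prime triples, quadruples, ... with a member in a sparse set of primes

Let `A` be a set of primes of relative lower density `β`. How many vectors `h = (h 1, ..., h m)` are
realised by `A`, that is, have a prime `p` in `A` such that `p + h 1, ..., p + h m` are all prime? (For
`m = 2, 3`: prime triples and quadruples.) The least possible lower density `F m β` of the set of
these vectors satisfies `F m β ~ e ^ (-m γ) / (log log (1 / β)) ^ m` as `β → 0`. So even very sparse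
sets of primes realise many patterns: the density decays like a power of `1 / log log (1 / β)` only.
-/

set_option autoImplicit false

namespace Pool.Agent.Results.MP_3efbeb_nt.SparseSetsOfPrimes
open Finset Filter Topology

open Classical in
/-- The number of elements of `S` in `[1, x]`. -/
noncomputable def count (S : Set ℕ) (x : ℕ) : ℕ := ((Icc 1 x).filter (fun n => n ∈ S)).card

/-- The lower density, relative to the set of all primes, of the set of the primes in `A`. -/
noncomputable def relLower (A : Set ℕ) : ℝ :=
  liminf (fun x : ℕ => (count {p | p.Prime ∧ p ∈ A} x : ℝ) / (count {p | p.Prime} x : ℝ)) atTop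

/-- The vectors `h` which are realised by `A`: some prime `p` in `A` has all `p + h j` prime. -/
def realised (m : ℕ) (A : Set ℕ) : Set (Fin m → ℕ) :=
  {h | ∃ p ∈ A, p.Prime ∧ ∀ j, (p + h j).Prime}

open Classical in
/-- The number of the vectors in `S` with entries in `[1, x]`. -/
noncomputable def countVec {m : ℕ} (S : Set (Fin m → ℕ)) (x : ℕ) : ℕ :=
  ((Fintype.piFinset (fun _ : Fin m => Icc 1 x)).filter (fun h => h ∈ S)).card

/-- The lower density of a set of vectors. -/
noncomputable def lowerDensity {m : ℕ} (S : Set (Fin m → ℕ)) : ℝ :=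
  liminf (fun x : ℕ => (countVec S x : ℝ) / (x : ℝ) ^ m) atTop

/-- `F m β`: the least possible lower density of the set of the realised vectors, for sets `A` of
primes of relative lower density at least `β`. -/
noncomputable def F (m : ℕ) (β : ℝ) : ℝ :=
  sInf {d | ∃ A : Set ℕ, β ≤ relLower A ∧ d = lowerDensity (realised m A)}

/-- **The exact law for sparse sets of primes.** For every `m ≥ 1`,
`(log log (1 / β)) ^ m F m β → e ^ (-m γ)` as `β → 0+`. -/
theorem result (m : ℕ) (hm : 1 ≤ m) :
    Tendsto (fun β : ℝ => Real.log (Real.log (1 / β)) ^ m * F m β) (𝓝[>] 0)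
      (𝓝 (Real.exp (-(m * Real.eulerMascheroniConstant)))) := by
  have e1 : ∀ A : Set ℕ, relLower A = Pool.Agent.TH881.RQ.relq true A := by
    intro A
    rw [Pool.Agent.TH881.RQ.relq_true]
    rfl
  have e2 : ∀ A : Set ℕ, realised m A = Pool.Agent.TH881.RK.hitk true m A := by
    intro A
    ext h
    constructor
    · rintro ⟨p, hpA, hp, hj⟩
      exact ⟨p, hpA, fun _ => hp, hj⟩
    · rintro ⟨p, hpA, hp, hj⟩
      exact ⟨p, hpA, hp rfl, hj⟩
  have e3 : F m = Pool.Agent.TH881.RK.FFk true m := by
    funext β
    unfold F Pool.Agent.TH881.RK.FFk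
    congr 1
    ext d
    constructor
    · rintro ⟨A, hA, hd⟩
      refine ⟨A, by rw [← e1]; exact hA, ?_⟩
      rw [hd, e2]
      rfl
    · rintro ⟨A, hA, hd⟩
      refine ⟨A, by rw [e1]; exact hA, ?_⟩
      rw [hd, e2]
      rfl
  rw [e3]
  exact Pool.Agent.TH881.RK.law_zero_in true m hm

end Pool.Agent.Results.MP_3efbeb_nt.SparseSetsOfPrimes
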