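import Pool.Agent.TH816.MQ.Cst
import Pool.Agent.TH816.MQ.Ch

set_option autoImplicit false

/-! # Strings of consecutive primes all of which belong to almost prime constellations -/

namespace Pool.Agent.Results.MP_3efbeb_nt.StringsOfConstellations

open Finset

/-- `n` has at most `K` prime factors (counted with multiplicity), all of them larger than `y` -/
def AlmostPrime (K : ℕ) (y : ℝ) (n : ℕ) : Prop :=
  ArithmeticFunction.cardFactors n ≤ K ∧ ∀ ℓ : ℕ, ℓ.Prime → ℓ ∣ n → y < ℓ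

/-- `t + R` is an almost prime constellation of the interval `(a, b]` with `t ≡ c` modulo `q` -/
def Constellation (q c : ℕ) (R : Finset ℕ) (a b K : ℕ) (y : ℝ) (t : ℕ) : Prop :=
  a < t ∧ t ≡ c [MOD q] ∧ ∀ ρ ∈ R, t + ρ ≤ b ∧ AlmostPrime K y (t + ρ)

open Classical in
/-- For all `m` and `r` there are `δ > 0`, `K` and `C` with the following property. Let `q ≥ 1`, let
`R` be a finite set with at most `r` elements, let `c + ρ` be coprime to `q` for all `ρ ∈ R`, and let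
no prime `ℓ` be such that `R` meets all classes modulo `ℓ` (for example `R = {0, 2, 6}` or
`R = {0, 2, 6, 8}` and `q = 1`). Let `z ∈ R`. Then there is `B` such that for all large `x` at least
`x / (log x) ^ C` integers `n` of `[x, 2 x)` satisfy:

* EVERY prime of the interval `(n, n + B]` is an element of a set `t + R ⊆ (n, n + B]` with
  `t ≡ c` modulo `q` all of whose elements are products of at most `K` primes, all larger than
  `x ^ δ`;
* for at least `m` of these `t` the number `t + z` is prime.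

The numbers `δ`, `K` and `C` depend only on `m` and `r`, and not on `q`, `c`, `z`, `R`. -/
theorem result (m r : ℕ) : ∃ (δ : ℝ) (K C : ℕ), 0 < δ ∧
    ∀ (q c z : ℕ) (R : Finset ℕ), 0 < q → R.card ≤ r → z ∈ R → (∀ ρ ∈ R, (c + ρ).Coprime q) →
    (∀ ℓ : ℕ, ℓ.Prime → ∃ v : ℕ, ∀ ρ ∈ R, ¬ ℓ ∣ v + ρ) →
    ∃ B x₀ : ℕ, ∀ x : ℕ, x₀ ≤ x → (x : ℝ) / Real.log x ^ C ≤
      (#{n ∈ Ico x (2 * x) |
        (∀ p ∈ Ioc n (n + B), p.Prime →
          ∃ t, Constellation q c R n (n + B) K ((x : ℝ) ^ δ) t ∧ ∃ ρ ∈ R, p = t + ρ) ∧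
        m ≤ #{t ∈ Ioc n (n + B) | Constellation q c R n (n + B) K ((x : ℝ) ^ δ) t ∧
          (t + z).Prime}} : ℝ) := by
  obtain ⟨δ, C, hδ, hδ1, hmas⟩ := Pool.Agent.TH816.MQ.master2 m r
  obtain ⟨xo, hom⟩ := Pool.Agent.TH816.MQ.omega_le hδ
  refine ⟨δ, ⌈2 / δ⌉₊, C, hδ, fun q c z R hq hR hz hc hadm => ?_⟩
  obtain ⟨B, x₁, h⟩ := hmas q c z R hq hR hz (hc z hz) (fun ℓ hℓ _ => hadm ℓ hℓ)
  refine ⟨B, max (max x₁ xo) (max B 3), fun x hx => ?_⟩
  simp only [max_le_iff] at hx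
  obtain ⟨⟨hx1, hx2⟩, hx3, hx4⟩ := hx
  obtain ⟨G, hG1, hG2, hG3⟩ := h x hx1
  refine hG2.trans ?_
  have key : ∀ n ∈ G, ∀ t, n < t → (∀ ρ ∈ R, t + ρ ≤ n + B) →
      Pool.Agent.TH816.MQ.Cst q c R ((x : ℝ) ^ δ) t →
      Constellation q c R n (n + B) ⌈2 / δ⌉₊ ((x : ℝ) ^ δ) t := by
    intro n hn t ht1 ht2 ht3
    have hn' := mem_Ico.1 (hG1 hn)
    refine ⟨ht1, ht3.1, fun ρ hρ => ⟨ht2 ρ hρ, ?_⟩⟩
    have hrough : ∀ ℓ : ℕ, ℓ.Prime → ℓ ∣ t + ρ → (x : ℝ) ^ δ < ℓ := by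
      intro ℓ hℓ hd
      by_cases hq' : ℓ ∣ q
      · exfalso
        have h1 : t + ρ ≡ c + ρ [MOD q] := ht3.1.add_right ρ
        have h2 : (t + ρ).Coprime q := by
          unfold Nat.Coprime
          rw [h1.gcd_eq]
          exact hc ρ hρ
        have h3 := Nat.dvd_gcd hd hq'
        rw [h2] at h3
        exact hℓ.one_lt.ne' (Nat.dvd_one.1 h3)
      · exact ht3.2 ρ hρ ℓ hℓ hq' hd
    refine ⟨hom x hx2 3 (t + ρ) (by omega) ?_ hx4 hrough, hrough⟩
    have := ht2 ρ hρ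
    omega
  exact_mod_cast Finset.card_le_card (fun n hn => by
    rw [mem_filter]
    obtain ⟨⟨S, hS1, hS2⟩, h2⟩ := hG3 n hn
    refine ⟨hG1 hn, fun p hp hpp => ?_, ?_⟩
    · obtain ⟨t, h3, h4, h5, h6⟩ := h2 p hp hpp
      exact ⟨t, key n hn t h3 h4 h5, h6⟩
    · rw [← hS1]
      apply Finset.card_le_card
      intro t ht
      obtain ⟨h3, h4, h5, h6⟩ := hS2 t ht
      rw [mem_filter, mem_Ioc]
      have := h4 z hz
      exact ⟨⟨h3, by omega⟩, key n hn t h3 h4 h6, h5⟩)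

end Pool.Agent.Results.MP_3efbeb_nt.StringsOfConstellations
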